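import Pool.Agent.H22.Sym4

set_option autoImplicit false

namespace Pool.Agent.Results.MP_f102ee_gt.NoExample

open Pool.Agent.H22.Sym

theorem result (n : ℕ) (H : Submodule ℝ (En n)) (b : Bool) (S : Set (En n) → Set (En n))
    (h1 : ∀ K, InB b K → InB b (S K) ∧ HSym H (S K))
    (h2 : ∀ K L, InB b K → InB b L → K ⊆ L → S K ⊆ S L)
    (h3 : ∀ x ∈ H, ∀ r s : ℝ, 0 < r → 0 < s → S (cyl H x r s) = cyl H x r s) :
    ∀ K, InB b K → H.starProjection '' S K = H.starProjection '' K :=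
  fun _ hK => proj_eq h1 h2 h3 hK

end Pool.Agent.Results.MP_f102ee_gt.NoExample
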